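import Pool.Agent.H17.SD.Targets

/-!
# MP_70ba79_ag, THEOREM S, chapter 1, BBD: the spaces of homogeneous integral elements
-/

set_option autoImplicit false

namespace Pool.Agent.H55.SFG

open MvPolynomial SC Pool.Agent.H27.LV
open Pool.Agent.H92.SF Pool.Agent.H3.SF Pool.Agent.H17.SD

theorem bbd_eu {k F ι : Type} [Field k] [Field F] [Algebra k F] [Fintype ι] (u : ι → F)
    (E : Derivation k F F) (hE : ∀ i, E (u i) = u i) (P : MvPolynomial ι k) :
    E (aeval u P) = aeval u (∑ i, X i * pderiv i P) := by
  induction P using MvPolynomial.induction_on with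
  | C a => simp
  | add p q hp hq =>
    simp only [map_add, mul_add, Finset.sum_add_distrib, hp, hq]
  | mul_X p i hp =>
    classical
    rw [map_mul, aeval_X, Derivation.leibniz, hE, hp]
    simp only [smul_eq_mul, map_sum, map_mul, aeval_X, Derivation.leibniz, map_add, mul_add,
      Finset.sum_add_distrib, pderiv_X, Pi.single_apply, mul_ite, mul_one, mul_zero]
    rw [Finset.mul_sum]
    congr 1
    · rw [Finset.sum_eq_single i]
      · simp
        ring
      · intro j _ hj
        rw [if_neg (fun h => hj h.symm)]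
        simp
      · intro h
        exact absurd (Finset.mem_univ i) h
    · refine Finset.sum_congr rfl fun j _ => ?_
      ring

theorem pf_BBD (h1 : T_ITA) (h2 : T_MPC) (h3 : T_MPH) (h4 : T_HMP) (h5 : T_DMB) : T_BBD := by
  intro k F _ _ _ _ u θ dd J j0 hu hfd hgen hθ hdd hEθ hJh hJ0 hJ
  have hEu : ∀ l, eu u dd (u l) = u l := by
    intro l
    unfold eu
    rw [Fin.sum_univ_three]
    simp only [Derivation.add_apply, Derivation.smul_apply, hdd]
    fin_cases l <;> simp
  have hEJ : eu u dd (aeval u J) = (j0 : F) * aeval u J := by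
    rw [bbd_eu u _ hEu, hJh.sum_X_mul_pderiv, map_nsmul, nsmul_eq_mul]
  have hJu : aeval u J ≠ 0 := fun h => hJ0 (hu (by rw [h, map_zero]))
  have hui : ∀ i, Itg k u (u i) := by
    intro i
    have h := ((aeval u : MvPolynomial (Fin 3) k →ₐ[k] F) :
      MvPolynomial (Fin 3) k →+* F).isIntegralElem_map (x := X i)
    simpa [Itg] using h
  have hPB : PB k u θ ≤ Bb k u := by
    refine Algebra.adjoin_le ?_
    rintro a (rfl | ⟨i, rfl⟩)
    · exact hθ
    · exact hui i
  have hmul : ∀ (t : ℤ) (a : F), a ∈ BB k u (eu u dd) t →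
      aeval u J * a ∈ Gr (PB k u θ) (eu u dd) (t + j0) := by
    intro t a ha
    refine ⟨hJ a ha.1, ?_⟩
    have h := ha.2
    unfold Hm at *
    rw [Derivation.leibniz, h, hEJ]
    push_cast
    simp only [smul_eq_mul]
    ring
  obtain ⟨hD1, hD2⟩ := h5 k F u θ (eu u dd) hu hfd hgen hθ hEu hEθ
  refine ⟨?_, ?_, ?_, hmul⟩
  · intro t ht
    rw [eq_bot_iff]
    intro a ha
    rw [Submodule.mem_bot]
    have hint : IsIntegral (kF k u) a := Algebra.IsIntegral.isIntegral a
    have hn : 0 < (minpoly (kF k u) a).natDegree := minpoly.natDegree_pos hint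
    obtain ⟨P, hP⟩ := h2 k F (Fin 3) u hu a ha.1 0
    have hH := h3 k F (Fin 3) u (eu u dd) hEu a t hint.isAlgebraic ha.2 0
    rw [hP] at hH
    have hneg : (((minpoly (kF k u) a).natDegree : ℤ) - (0 : ℕ)) * t < 0 := by
      have : (0 : ℤ) < ((minpoly (kF k u) a).natDegree : ℤ) := by exact_mod_cast hn
      push_cast
      nlinarith
    have hP0 := (h4 k F (Fin 3) u hu (eu u dd) hEu P _ hH).2 hneg
    rw [hP0, map_zero] at hP
    have h0 : (minpoly (kF k u) a).coeff 0 = 0 := by
      exact_mod_cast hP
    exact (minpoly.coeff_zero_eq_zero hint).1 h0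
  · intro t
    have hfin : Module.Finite k (Gr (PB k u θ) (eu u dd) (t + j0)) := by
      rcases lt_or_ge (t + j0) 0 with h | h
      · rw [hD1 _ h]
        infer_instance
      · obtain ⟨n, hn⟩ := Int.eq_ofNat_of_zero_le h
        rw [hn]
        exact (hD2 n).1
    let f : BB k u (eu u dd) t →ₗ[k] Gr (PB k u θ) (eu u dd) (t + j0) :=
      { toFun := fun a => ⟨aeval u J * a.1, hmul t a.1 a.2⟩
        map_add' := by
          intro a b
          apply Subtype.ext
          simp [mul_add]
        map_smul' := by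
          intro c a
          apply Subtype.ext
          simp }
    refine Module.Finite.of_injective f ?_
    intro a b hab
    have h := congrArg Subtype.val hab
    exact Subtype.ext (mul_left_cancel₀ hJu h)
  · intro t a ha
    exact ⟨hPB ha.1, ha.2⟩

end Pool.Agent.H55.SFG
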